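import Pool.Agent.R419.KF.Sum
import Pool.Agent.E8helper20.CTK3.StmD

/-!
# Project CTK3, parts D6 and D7: the sum over `M` and the translation to elements

Adapted from the files `R419/KF/Sum.lean`, `R419/KF/NS.lean` of helper419.
-/

set_option autoImplicit false

open scoped Classical
open Finset Filter

namespace Pool.Agent.E8helper6.CTK3

open Pool.Agent.Y692.QS (Ei w nr toC)
open Pool.Agent.Y715.T.RecG (Pq)
open Pool.Agent.Y699.E
open Pool.Agent.Y703.XK (c9 S_C9 S_LOW SS Cl)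
open Pool.Agent.Y433.XK (pN pN_pos)
open Pool.Agent.R419.KF (SG mem_SG sub_QB prod_ppos ff ff_nonneg ff_summable sg_empty)
open Pool.Agent.E8helper20.CTK3 (S3 Gd3 AsyC ClsC3 el3 DenC S_DEN3K S_PAIR)

theorem mem_S3 {M : Finset Ei} {X : ℕ} {S : Finset Ei} :
    S ∈ S3 M X ↔ ((∀ π ∈ S, Pq π) ∧ ∏ π ∈ S, nrm π ≤ X) ∧ M ⊆ S ∧ S.Nonempty := by
  unfold S3
  rw [mem_filter, mem_SG]

/-- the number of the pairs -/
noncomputable def Nt (X : ℕ) : ℕ := ∑ M ∈ SG X, (S3 M (X / pN M)).card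

/-- the number of the good pairs -/
noncomputable def Gt (X : ℕ) : ℕ := ∑ M ∈ SG X, ((S3 M (X / pN M)).filter (Gd3 M)).card

theorem sw_le {M : Finset Ei} (hM : ∀ q ∈ M, Pq q) (X : ℕ) :
    ((S3 M (X / pN M)).card : ℝ) ≤ 16 * (X * ff M) := by
  have hp := pN_pos hM
  have hp' : (0 : ℝ) < (pN M : ℝ) := by exact_mod_cast hp
  have h1 : ((S3 M (X / pN M)).image fun S => S \ M).card = (S3 M (X / pN M)).card := by
    apply card_image_of_injOn
    intro S hS T hT h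
    rw [mem_coe, mem_S3] at hS hT
    have h' : S \ M = T \ M := h
    rw [← sdiff_union_of_subset hS.2.1, h', sdiff_union_of_subset hT.2.1]
  have h2 : ff M = 1 / (pN M : ℝ) ^ 2 := by
    unfold ff
    rw [if_pos hM]
  rw [← h1, h2]
  apply Pool.Agent.R419.KF.Cnt.card_le_real _ (by positivity)
  intro T hT
  rw [mem_image] at hT
  obtain ⟨S, hS, rfl⟩ := hT
  rw [mem_S3] at hS
  refine ⟨fun q hq => hS.1.1 q (mem_sdiff.1 hq).1, ?_⟩
  have h3 : (∏ π ∈ S \ M, nrm π) * pN M = ∏ π ∈ S, nrm π := by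
    unfold pN
    exact prod_sdiff hS.2.1
  have h4 : (((∏ π ∈ S \ M, nrm π : ℕ)) : ℝ) * (pN M : ℝ) ≤ (X : ℝ) / (pN M : ℝ) := by
    have h5 : ((∏ π ∈ S, nrm π : ℕ) : ℝ) ≤ ((X / pN M : ℕ) : ℝ) := by exact_mod_cast hS.1.2
    rw [← h3] at h5
    push_cast at h5 ⊢
    exact h5.trans (Nat.cast_div_le)
  rw [le_div_iff₀ hp'] at h4
  rw [mul_one_div, le_div_iff₀ (by positivity)]
  calc _ = (((∏ π ∈ S \ M, nrm π : ℕ)) : ℝ) * (pN M : ℝ) * (pN M : ℝ) := by ring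
    _ ≤ _ := h4

theorem SS_sub (X : ℕ) : SS X ⊆ S3 ∅ X := by
  intro S hS
  unfold SS at hS
  rw [mem_filter] at hS
  rw [mem_S3]
  refine ⟨⟨hS.2.1.1, hS.2.2⟩, empty_subset _, ?_⟩
  rw [nonempty_iff_ne_empty]
  rintro rfl
  apply hS.2.1.2
  rw [prod_empty]
  norm_num

theorem low_Nt (hLo : S_LOW) : ∃ (c : ℝ) (X₀ : ℕ), 0 < c ∧ ∀ X : ℕ, X₀ ≤ X →
    c * X ≤ (Nt X : ℝ) := by
  obtain ⟨c, X₀, hc, h⟩ := hLo
  refine ⟨c, max X₀ 1, hc, fun X hX => ?_⟩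
  have h1 := h X ((le_max_left _ _).trans hX)
  refine h1.trans ?_
  have h2 : (SS X).card ≤ Nt X := by
    have h3 := single_le_sum (f := fun M => (S3 M (X / pN M)).card)
      (fun _ _ => Nat.zero_le _) (sg_empty ((le_max_right _ _).trans hX))
    have h4 : pN (∅ : Finset Ei) = 1 := by
      unfold pN
      rw [prod_empty]
    simp only [h4, Nat.div_one] at h3
    exact (card_le_card (SS_sub X)).trans h3
  exact_mod_cast h2

theorem abs_le_card (hc9 : S_C9) (M : Finset Ei) (Y : ℕ) :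
    |(((S3 M Y).filter (Gd3 M)).card : ℝ) - c9 * ((S3 M Y).card : ℝ)| ≤ ((S3 M Y).card : ℝ) := by
  have h2 : (((S3 M Y).filter (Gd3 M)).card : ℝ) ≤ ((S3 M Y).card : ℝ) := by
    exact_mod_cast card_filter_le _ _
  have h3 : (0 : ℝ) ≤ ((S3 M Y).card : ℝ) := Nat.cast_nonneg _
  exact Pool.Agent.Y703.CX.abs_sub_le_of (Nat.cast_nonneg _) h2 (mul_nonneg hc9.2.1.le h3)
    (mul_le_of_le_one_left h3 hc9.2.2.1.le)

/-- the error -/
theorem tot (hc9 : S_C9) (hA : AsyC) (δ : ℝ) (hδ : 0 < δ) :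
    ∀ᶠ X : ℕ in atTop, |(Gt X : ℝ) - c9 * (Nt X : ℝ)| ≤ δ * X := by
  obtain ⟨T₀, hT₀⟩ := (summable_iff_vanishing_norm.1 ff_summable) (δ / 32) (by positivity)
  set ε' : ℝ := δ / (2 * ((T₀.card : ℝ) + 1)) with hε'
  have hε'0 : 0 < ε' := by positivity
  have hev : ∀ᶠ X : ℕ in atTop, ∀ M ∈ T₀.filter (fun M => ∀ q ∈ M, Pq q),
      |(((S3 M (X / pN M)).filter (Gd3 M)).card : ℝ) - c9 * ((S3 M (X / pN M)).card : ℝ)| ≤
        ε' * X := by
    rw [eventually_all_finset]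
    intro M hM
    have hp := pN_pos (mem_filter.1 hM).2
    obtain ⟨X₀, hX₀⟩ := hA M ε' hε'0
    filter_upwards [eventually_ge_atTop (X₀ * pN M)] with X hX
    have h5 : X₀ ≤ X / pN M := (Nat.le_div_iff_mul_le hp).2 hX
    refine (hX₀ _ h5).trans ?_
    have h6 : ((X / pN M : ℕ) : ℝ) ≤ X := by exact_mod_cast Nat.div_le_self _ _
    gcongr
  filter_upwards [hev] with X hX
  have k1 : (Gt X : ℝ) - c9 * (Nt X : ℝ) = ∑ M ∈ SG X,
      ((((S3 M (X / pN M)).filter (Gd3 M)).card : ℝ) - c9 * ((S3 M (X / pN M)).card : ℝ)) := by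
    rw [sum_sub_distrib, ← mul_sum]
    unfold Gt Nt
    push_cast
    rfl
  have hX0 : (0 : ℝ) ≤ X := Nat.cast_nonneg _
  rw [k1]
  refine (abs_sum_le_sum_abs _ _).trans ?_
  rw [← sum_filter_add_sum_filter_not (SG X) (fun M => M ∈ T₀)]
  have k2 : ∑ M ∈ (SG X).filter (fun M => M ∈ T₀), |(((S3 M (X / pN M)).filter (Gd3 M)).card : ℝ) -
      c9 * ((S3 M (X / pN M)).card : ℝ)| ≤ δ / 2 * X := by
    have k3 : ∑ M ∈ (SG X).filter (fun M => M ∈ T₀),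
        |(((S3 M (X / pN M)).filter (Gd3 M)).card : ℝ) - c9 * ((S3 M (X / pN M)).card : ℝ)| ≤
        ∑ M ∈ (SG X).filter (fun M => M ∈ T₀), ε' * X := by
      refine sum_le_sum fun M hM => hX M ?_
      rw [mem_filter] at hM ⊢
      exact ⟨hM.2, (mem_SG.1 hM.1).1⟩
    refine k3.trans ?_
    rw [sum_const, nsmul_eq_mul]
    have k4 : ((((SG X).filter fun M => M ∈ T₀).card : ℕ) : ℝ) ≤ (T₀.card : ℝ) + 1 := by
      have : ((SG X).filter fun M => M ∈ T₀).card ≤ T₀.card :=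
        card_le_card fun M hM => (mem_filter.1 hM).2
      have h6 : ((((SG X).filter fun M => M ∈ T₀).card : ℕ) : ℝ) ≤ (T₀.card : ℝ) := by
        exact_mod_cast this
      linarith
    have k5 : (0 : ℝ) < (T₀.card : ℝ) + 1 := by positivity
    calc ((((SG X).filter fun M => M ∈ T₀).card : ℕ) : ℝ) * (ε' * X) ≤
        ((T₀.card : ℝ) + 1) * (ε' * X) := by gcongr
      _ = δ / 2 * X := by
        rw [hε']
        field_simp
  have k3 : ∑ M ∈ (SG X).filter (fun M => ¬ M ∈ T₀),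
      |(((S3 M (X / pN M)).filter (Gd3 M)).card : ℝ) - c9 * ((S3 M (X / pN M)).card : ℝ)| ≤
      δ / 2 * X := by
    have k4 : ∑ M ∈ (SG X).filter (fun M => ¬ M ∈ T₀),
        |(((S3 M (X / pN M)).filter (Gd3 M)).card : ℝ) - c9 * ((S3 M (X / pN M)).card : ℝ)| ≤
        ∑ M ∈ (SG X).filter (fun M => ¬ M ∈ T₀), 16 * (X * ff M) := by
      refine sum_le_sum fun M hM => (abs_le_card hc9 M _).trans (sw_le ?_ X)
      exact (mem_SG.1 (mem_filter.1 hM).1).1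
    refine k4.trans ?_
    rw [← mul_sum, ← mul_sum]
    have k5 := hT₀ ((SG X).filter fun M => ¬ M ∈ T₀) (by
      rw [disjoint_left]
      intro M hM hM'
      exact (mem_filter.1 hM).2 hM')
    have k6 := (le_abs_self _).trans ((Real.norm_eq_abs _).symm.le.trans k5.le)
    calc 16 * ((X : ℝ) * ∑ M ∈ (SG X).filter (fun M => ¬ M ∈ T₀), ff M) ≤
        16 * ((X : ℝ) * (δ / 32)) := by gcongr
      _ = δ / 2 * X := by ring
  calc _ ≤ δ / 2 * X + δ / 2 * X := add_le_add k2 k3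
    _ = δ * X := by ring

/-- **the limit** -/
theorem t_TOT (hc9 : S_C9) (hLo : S_LOW) (hA : AsyC) :
    Tendsto (fun X : ℕ => (Gt X : ℝ) / (Nt X : ℝ)) atTop (nhds c9) := by
  obtain ⟨c, X₀, hc, hlow⟩ := low_Nt hLo
  rw [Metric.tendsto_nhds]
  intro ε hε
  filter_upwards [tot hc9 hA (c * ε / 2) (by positivity), eventually_ge_atTop (max X₀ 1)]
    with X hX hX0
  have hlo := hlow X ((le_max_left _ _).trans hX0)
  have hX1 : (0 : ℝ) < X := by exact_mod_cast (le_max_right _ _).trans hX0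
  have hN : (0 : ℝ) < Nt X := lt_of_lt_of_le (by positivity) hlo
  rw [Real.dist_eq]
  have e3 : (Gt X : ℝ) / (Nt X : ℝ) - c9 = ((Gt X : ℝ) - c9 * (Nt X : ℝ)) / (Nt X : ℝ) := by
    field_simp
  rw [e3, abs_div, abs_of_pos hN, div_lt_iff₀ hN]
  calc |(Gt X : ℝ) - c9 * (Nt X : ℝ)| ≤ c * ε / 2 * X := hX
    _ = ε / 2 * (c * X) := by ring
    _ ≤ ε / 2 * (Nt X : ℝ) := by gcongr
    _ < ε * (Nt X : ℝ) := by
      apply mul_lt_mul_of_pos_right _ hN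
      linarith

/-! ### Elements and pairs -/

theorem nrm_prod' (S : Finset Ei) : nrm (∏ π ∈ S, π) = ∏ π ∈ S, nrm π := by
  induction S using Finset.induction_on with
  | empty => rw [Finset.prod_empty, Finset.prod_empty, nrm_one]
  | insert a S ha ih => rw [Finset.prod_insert ha, Finset.prod_insert ha, nrm_mul, ih]

theorem el_ne {M S : Finset Ei} (hS : ∀ q ∈ S, Pq q) (hM : M ⊆ S) : el3 M S ≠ 0 :=
  mul_ne_zero (PS_prod hS).1.ne (PS_prod fun q hq => hS q (hM hq)).1.ne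

theorem el_prm {M S : Finset Ei} (hS : ∀ q ∈ S, Pq q) (hM : M ⊆ S) : prm (el3 M S) :=
  prm_mul (PS_prod hS).1.prm (PS_prod fun q hq => hS q (hM hq)).1.prm

theorem nrm_el (M S : Finset Ei) : nrm (el3 M S) = (∏ π ∈ S, nrm π) * ∏ π ∈ M, nrm π := by
  unfold el3
  rw [nrm_mul, nrm_prod', nrm_prod']

theorem PD_el {M S : Finset Ei} (hS : ∀ q ∈ S, Pq q) (hM : M ⊆ S) : PD (el3 M S) = S := by
  ext q
  rw [mem_PD (el_ne hS hM)]
  constructor
  · rintro ⟨h1, h2⟩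
    have h3 : ∀ T : Finset Ei, T ⊆ S → q ∣ ∏ π ∈ T, π → q ∈ S := by
      intro T hT h
      obtain ⟨π, hπ, h4⟩ := (h1.prime.dvd_finsetProd_iff _).1 h
      rw [eq_of_dvd h1 (hS π (hT hπ)) h4]
      exact hT hπ
    rcases h1.prime.dvd_or_dvd h2 with h | h
    · exact h3 S (subset_refl _) h
    · exact h3 M hM h
  · intro h
    exact ⟨hS q h, (dvd_prod_of_mem (fun π => π) h).mul_right _⟩

theorem el_inj {M S M' S' : Finset Ei} (hS : ∀ q ∈ S, Pq q) (hM : M ⊆ S)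
    (hS' : ∀ q ∈ S', Pq q) (hM' : M' ⊆ S') (h : el3 M S = el3 M' S') : M = M' ∧ S = S' := by
  have h1 : S = S' := by rw [← PD_el hS hM, h, PD_el hS' hM']
  subst h1
  have h2 : ∏ π ∈ M, π = ∏ π ∈ M', π := by
    unfold el3 at h
    exact mul_left_cancel₀ (PS_prod hS).1.ne h
  refine ⟨?_, rfl⟩
  rw [← (PS_prod fun q hq => hS q (hM hq)).2, h2, (PS_prod fun q hq => hS q (hM' hq)).2]

theorem cf_el {M S : Finset Ei} (hS : ∀ q ∈ S, Pq q) (hM : M ⊆ S) :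
    el3 M S ≠ 0 ∧ ∀ d : Ei, d ^ 3 ∣ el3 M S → IsUnit d := by
  refine ⟨el_ne hS hM, fun x hx => ?_⟩
  by_contra hnu
  have hx0 : x ≠ 0 := by
    rintro rfl
    rw [zero_pow (by norm_num), zero_dvd_iff] at hx
    exact el_ne hS hM hx
  obtain ⟨ρ, hρ, hρx⟩ := WfDvdMonoid.exists_irreducible_factor hnu hx0
  have hρ' : Prime ρ := irreducible_iff_prime.1 hρ
  have h1 : ρ ^ 3 ∣ el3 M S := (pow_dvd_pow_of_dvd hρx 3).trans hx
  have h2 : ¬ ρ * ρ ∣ ∏ π ∈ S, π := fun h => hρ'.not_isUnit ((PS_prod hS).1.sqf _ h)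
  have h3 : ¬ ρ * ρ ∣ ∏ π ∈ M, π := fun h =>
    hρ'.not_isUnit ((PS_prod fun q hq => hS q (hM hq)).1.sqf _ h)
  unfold el3 at h1
  have h4 : ρ ^ 3 = ρ * ρ * ρ := by ring
  by_cases h5 : ρ ∣ ∏ π ∈ S, π
  · obtain ⟨c, hc⟩ := h5
    have h6 : ρ * ρ ∣ c * ∏ π ∈ M, π := by
      rw [hc, h4] at h1
      have h7 : ρ * (ρ * ρ) ∣ ρ * (c * ∏ π ∈ M, π) := by
        convert h1 using 1 <;> ring
      exact (mul_dvd_mul_iff_left hρ'.ne_zero).1 h7
    have h7 : ¬ ρ ∣ c := fun h => h2 (by rw [hc]; exact mul_dvd_mul_left _ h)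
    have h8 : ρ ∣ ∏ π ∈ M, π := (hρ'.dvd_or_dvd ((dvd_mul_right ρ ρ).trans h6)).resolve_left h7
    obtain ⟨d, hd⟩ := h8
    rw [hd] at h6
    have h9 : ρ * ρ ∣ ρ * (c * d) := by
      convert h6 using 1
      ring
    have h10 := (mul_dvd_mul_iff_left hρ'.ne_zero).1 h9
    have h11 := (hρ'.dvd_or_dvd h10).resolve_left h7
    exact h3 (by rw [hd]; exact mul_dvd_mul_left _ h11)
  · have h6 := (hρ'.pow_dvd_of_dvd_mul_left 3 h5 h1)
    exact h3 ((by rw [h4]; exact dvd_mul_right _ _ : ρ * ρ ∣ ρ ^ 3).trans h6)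

/-- the pair of an element -/
theorem ex_pair {D : Ei} (h3 : prm D) (hcf : D ≠ 0 ∧ ∀ d : Ei, d ^ 3 ∣ D → IsUnit d) :
    ∃ M S : Finset Ei, (∀ q ∈ S, Pq q) ∧ M ⊆ S ∧ D = el3 M S := by
  have hn : D ≠ 0 := prm_ne_zero h3
  have hPDq : ∀ q ∈ PD D, Pq q := fun q hq => ((mem_PD hn).1 hq).1
  have h1 : (∏ π ∈ PD D, π) ∣ D := by
    refine Finset.prod_dvd_of_coprime ?_ ?_
    · intro π hπ ρ hρ hne
      exact pq_cop ((mem_PD hn).1 hπ).1 ((mem_PD hn).1 hρ).1 hne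
    · intro π hπ
      exact ((mem_PD hn).1 hπ).2
  obtain ⟨Q, hQ⟩ := h1
  have hP : prm (∏ π ∈ PD D, π) := prm_prod fun π hπ => (hPDq π hπ).three
  have hQp : prm Q := prm_cancel hP (by rw [← hQ]; exact h3)
  have hQD : Q ∣ D := by
    rw [hQ]
    exact dvd_mul_left _ _
  have hQs : PS Q := by
    refine ⟨hQp, fun x hx => ?_⟩
    by_contra hnu
    have hx0 : x ≠ 0 := by
      rintro rfl
      rw [zero_mul, zero_dvd_iff] at hx
      exact prm_ne_zero hQp hx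
    obtain ⟨ρ, hρ, hρx⟩ := WfDvdMonoid.exists_irreducible_factor hnu hx0
    have hρ' : Prime ρ := irreducible_iff_prime.1 hρ
    have h4 : ρ ∣ Q := hρx.trans ((dvd_mul_right x x).trans hx)
    have h2 : ρ ∣ D := h4.trans hQD
    obtain ⟨π, hπ, hass⟩ := exists_PP hρ' (not_dvd_three hρ' h2 h3)
    have h5 : π ∈ PD D := (mem_PD hn).2 ⟨hπ, hass.dvd.trans h2⟩
    have h6 : π ^ 3 ∣ D := by
      have e : π ^ 3 = π * (π * π) := by ring
      rw [hQ, e]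
      exact mul_dvd_mul (Finset.dvd_prod_of_mem _ h5)
        ((mul_dvd_mul (hass.dvd.trans hρx) (hass.dvd.trans hρx)).trans hx)
    exact hπ.prime.not_isUnit (hcf.2 π h6)
  refine ⟨PD Q, PD D, hPDq, ?_, ?_⟩
  · intro q hq
    obtain ⟨h4, h5⟩ := (mem_PD hQs.ne).1 hq
    exact (mem_PD hn).2 ⟨h4, h5.trans hQD⟩
  · unfold el3
    rw [hQs.prod]
    exact hQ

/-- D7 -/
theorem t_PAIR : S_PAIR := by
  rintro D ⟨h3, hcf, h1⟩
  obtain ⟨M, S, hS, hM, rfl⟩ := ex_pair h3 hcf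
  refine ⟨M, S, hS, hM, ?_, rfl⟩
  rw [nonempty_iff_ne_empty]
  rintro rfl
  rw [subset_empty] at hM
  subst hM
  apply h1
  unfold el3
  rw [prod_empty, mul_one]

theorem cls_el {M S : Finset Ei} (hS : ∀ q ∈ S, Pq q) (hM : M ⊆ S) (hne : S.Nonempty) :
    ClsC3 (el3 M S) := by
  refine ⟨el_prm hS hM, cf_el hS hM, fun h => ?_⟩
  obtain ⟨q, hq⟩ := hne
  have h1 : q ∣ el3 M S := by
    unfold el3
    exact (dvd_prod_of_mem (fun π => π) hq).mul_right _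
  rw [h] at h1
  exact (hS q hq).prime.not_isUnit (isUnit_of_dvd_one h1)

/-- the count -/
theorem card_eq (X : ℕ) (R : Finset Ei → Finset Ei → Prop) (T : Ei → Prop)
    (hT : ∀ M S : Finset Ei, (∀ π ∈ S, Pq π) → M ⊆ S → S.Nonempty → (T (el3 M S) ↔ R M S)) :
    {D : Ei | nr D ≤ X ∧ ClsC3 D ∧ T D}.ncard =
      ∑ M ∈ SG X, ((S3 M (X / pN M)).filter (R M)).card := by
  rw [← card_sigma]
  have h1 : {D : Ei | nr D ≤ X ∧ ClsC3 D ∧ T D} =
      (fun p : (Σ _ : Finset Ei, Finset Ei) => el3 p.1 p.2) ''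
        (((SG X).sigma fun M => (S3 M (X / pN M)).filter (R M) :
          Finset (Σ _ : Finset Ei, Finset Ei)) : Set (Σ _ : Finset Ei, Finset Ei)) := by
    ext D
    constructor
    · rintro ⟨h1, h2, h3⟩
      obtain ⟨M, S, hS, hM, hne, rfl⟩ := t_PAIR D h2
      have h4 : nrm (el3 M S) ≤ X := by
        rw [← nrm_cast] at h1
        exact_mod_cast h1
      have hM' : ∀ q ∈ M, Pq q := fun q hq => hS q (hM hq)
      refine ⟨⟨M, S⟩, ?_, rfl⟩
      rw [mem_coe, mem_sigma]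
      rw [nrm_el] at h4
      refine ⟨mem_SG.2 ⟨hM', ?_⟩, mem_filter.2 ⟨mem_S3.2 ⟨⟨hS, ?_⟩, hM, hne⟩,
        (hT M S hS hM hne).1 h3⟩⟩
      · exact (Nat.le_mul_of_pos_left _ (prod_ppos hS)).trans h4
      · rw [Nat.le_div_iff_mul_le (pN_pos hM')]
        exact h4
    · rintro ⟨⟨M, S⟩, hp, rfl⟩
      rw [mem_coe, mem_sigma] at hp
      obtain ⟨h2, h3⟩ := hp
      have hM' := (mem_SG.1 h2).1
      obtain ⟨h4, h5⟩ := mem_filter.1 h3
      obtain ⟨⟨h6, h7⟩, h8, h9⟩ := mem_S3.1 h4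
      refine ⟨?_, cls_el h6 h8 h9, (hT M S h6 h8 h9).2 h5⟩
      rw [Nat.le_div_iff_mul_le (pN_pos hM')] at h7
      rw [← nrm_cast]
      show ((nrm (el3 M S) : ℕ) : ℤ) ≤ X
      rw [nrm_el]
      exact_mod_cast h7
  rw [h1, Set.InjOn.ncard_image, Set.ncard_coe_finset]
  rintro ⟨M, S⟩ hp ⟨M', S'⟩ hp' h
  rw [mem_coe, mem_sigma] at hp hp'
  have h2 := mem_S3.1 (mem_filter.1 hp.2).1
  have h3 := mem_S3.1 (mem_filter.1 hp'.2).1
  obtain ⟨h4, h5⟩ := el_inj h2.1.1 h2.2.1 h3.1.1 h3.2.1 h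
  simp only at h4 h5
  subst h4
  subst h5
  rfl

theorem card_cls (X : ℕ) : {D : Ei | nr D ≤ X ∧ ClsC3 D}.ncard = Nt X := by
  have h := card_eq X (fun _ _ => True) (fun _ => True) fun _ _ _ _ _ => Iff.rfl
  unfold Nt
  simp only [and_true, Finset.filter_true] at h
  exact h

/-- D6 -/
theorem t_DEN3K : S_DEN3K := by
  intro hc9 hLo hA
  constructor
  · obtain ⟨c, X₀, hc, h⟩ := low_Nt hLo
    refine ⟨c, hc, X₀, fun X hX => ?_⟩
    rw [card_cls]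
    exact h X hX
  · intro T hT
    refine (t_TOT hc9 hLo hA).congr fun X => ?_
    rw [card_cls, card_eq X Gd3 T hT]
    rfl

end Pool.Agent.E8helper6.CTK3
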